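import Pool.Agent.Helper70_NAL.NZc
import Pool.Agent.Helper8_NLO.LOW

/-!
# MP_d20576_an, squad NAL: the case in which the return to the space fails (helper70)

`nz`: if `TT` fails, then there is a bounded convex set with the property `N0` and the reservoir
property `Rsv`.
-/

set_option autoImplicit false

open MeasureTheory Set Filter
open scoped Topology

noncomputable section

namespace Pool.Agent.NA.H70

open Pool.Agent.NL

variable {X : Type} [NormedAddCommGroup X] [NormedSpace ℝ X]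

/-- the combination of the generic points as a combination of a finitely supported function -/
theorem V_sum (G : ℝ → Z) {n : ℕ} (x : Fin n → ℝ) (b : Fin n → ℝ) :
    NL.V G (∑ i, Finsupp.single (x i) (b i)) = ∑ i, b i • G (x i) := by
  rw [map_sum]
  refine Finset.sum_congr rfl fun i _ => ?_
  exact Finsupp.linearCombination_single _ _ _

theorem V_filter (G : ℝ → Z) {n : ℕ} {x : Fin n → ℝ}
    (b : Fin n → ℝ) (I : Finset (Fin n)) (p : ℝ → Prop) [DecidablePred p]
    (hp : ∀ i, p (x i) ↔ i ∈ I) :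
    NL.V G ((∑ i, Finsupp.single (x i) (b i)).filter p) =
      ∑ i, (if i ∈ I then b i else 0) • G (x i) := by
  have h1 : ((∑ i, Finsupp.single (x i) (b i)).filter p) =
      ∑ i, Finsupp.single (x i) (if i ∈ I then b i else 0) := by
    rw [Finsupp.filter_sum]
    refine Finset.sum_congr rfl fun i _ => ?_
    by_cases hi : i ∈ I
    · rw [if_pos hi, Finsupp.filter_single_of_pos _ ((hp i).2 hi)]
    · rw [if_neg hi, Finsupp.filter_single_of_neg _ (fun h => hi ((hp i).1 h)),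
        Finsupp.single_zero]
  rw [h1, V_sum]

/-- the positive part -/
theorem part {G : ℝ → Z} {Ψ : X →ₗᵢ[ℝ] Z} {S : Set ℝ} {e : ℝ} {n : ℕ} {x : Fin n → ℝ}
    (hlow : Low G Ψ S e n x) (hxS : ∀ i, x i ∈ S) (q : Fin n → ℝ) (hq : ∀ i, 0 ≤ q i) (s : ℝ)
    (hs : |s| = 1) : e * ∑ i, q i ≤ rho Ψ (∑ i, (s * q i) • G (x i)) := by
  rcases eq_or_lt_of_le (Finset.sum_nonneg fun i (_ : i ∈ Finset.univ) => hq i) with h0 | h0
  · rw [← h0, mul_zero]
    exact NL.H8.rho_nonneg _ _
  · set T := ∑ i, q i with hT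
    have h1 := hlow hxS (fun i => q i / T) (fun i => div_nonneg (hq i) h0.le)
      (by rw [← Finset.sum_div, ← hT, div_self h0.ne'])
    have hs0 : s ≠ 0 := by
      intro h
      rw [h, abs_zero] at hs
      exact zero_ne_one hs
    have h2 := NL.H8.rho_smul_ge Ψ _ (s * T) e (mul_ne_zero hs0 h0.ne') h1
    rw [abs_mul, hs, one_mul, abs_of_pos h0, mul_comm T e, Finset.smul_sum] at h2
    refine h2.trans_eq (congrArg _ (Finset.sum_congr rfl fun i _ => ?_))
    rw [smul_smul]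
    congr 1
    field_simp

/-- the lower estimate for all combinations -/
theorem low_all (rem : RemStmt) {f : ℝ → X} {F : ℕ → StrongDual ℝ X} {G : ℝ → Z}
    {Ψ : X →ₗᵢ[ℝ] Z} (hC : Crv f F G Ψ) {S : Set ℝ} {e : ℝ} {n : ℕ} {x : Fin n → ℝ}
    (hlow : Low G Ψ S e n x) (hxS : ∀ i, x i ∈ S) (hx : Function.Injective x)
    (hg : Good G Ψ (Finset.univ.image x)) (b : Fin n → ℝ) :
    e / 2 * ∑ i, |b i| ≤ rho Ψ (∑ i, b i • G (x i)) := by
  classical
  have hsup : (∑ i, Finsupp.single (x i) (b i)).support ⊆ Finset.univ.image x := by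
    refine (Finsupp.support_finsetSum).trans ?_
    intro y hy
    obtain ⟨i, -, hi⟩ := Finset.mem_biUnion.1 hy
    have h1 := Finsupp.support_single_subset hi
    rw [Finset.mem_singleton] at h1
    rw [h1]
    exact Finset.mem_image_of_mem x (Finset.mem_univ i)
  have hr : ∀ I : Finset (Fin n), rho Ψ (∑ i, (if i ∈ I then b i else 0) • G (x i)) ≤
      rho Ψ (∑ i, b i • G (x i)) := by
    intro I
    have h1 := rem X f F G Ψ hC _ hg _ hsup (fun y => ∃ i ∈ I, x i = y)
    rw [V_sum, V_filter G b I (fun y => ∃ i ∈ I, x i = y)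
      (fun i => ⟨fun ⟨j, hj, hji⟩ => hx hji ▸ hj, fun hi => ⟨i, hi, rfl⟩⟩)] at h1
    exact h1
  have hp := hr (Finset.univ.filter fun i => 0 < b i)
  have hn := hr (Finset.univ.filter fun i => b i < 0)
  have hp' := part hlow hxS (fun i => max (b i) 0) (fun i => le_max_right _ _) 1 abs_one
  have hn' := part hlow hxS (fun i => max (-b i) 0) (fun i => le_max_right _ _) (-1)
    (by rw [abs_neg, abs_one])
  have e1 : ∑ i, (if i ∈ (Finset.univ.filter fun i => 0 < b i) then b i else 0) • G (x i) =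
      ∑ i, ((1 : ℝ) * max (b i) 0) • G (x i) := by
    refine Finset.sum_congr rfl fun i _ => ?_
    congr 1
    simp only [Finset.mem_filter, Finset.mem_univ, true_and, one_mul]
    split_ifs with h
    · rw [max_eq_left h.le]
    · rw [max_eq_right (not_lt.1 h)]
  have e2 : ∑ i, (if i ∈ (Finset.univ.filter fun i => b i < 0) then b i else 0) • G (x i) =
      ∑ i, ((-1 : ℝ) * max (-b i) 0) • G (x i) := by
    refine Finset.sum_congr rfl fun i _ => ?_
    congr 1
    simp only [Finset.mem_filter, Finset.mem_univ, true_and]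
    split_ifs with h
    · rw [max_eq_left (by linarith)]
      ring
    · rw [max_eq_right (by linarith), mul_zero]
  rw [e1] at hp
  rw [e2] at hn
  have h3 : ∑ i, |b i| = ∑ i, max (b i) 0 + ∑ i, max (-b i) 0 := by
    rw [← Finset.sum_add_distrib]
    refine Finset.sum_congr rfl fun i _ => ?_
    rcases le_total 0 (b i) with h | h
    · rw [abs_of_nonneg h, max_eq_left h, max_eq_right (by linarith), add_zero]
    · rw [abs_of_nonpos h, max_eq_right h, max_eq_left (by linarith), zero_add]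
  rw [h3]
  linarith

variable [CompleteSpace X]

theorem rsv (rem : RemStmt) (nrm : NrmStmt) {f : ℝ → X} {F : ℕ → StrongDual ℝ X} {G : ℝ → Z}
    {Ψ : X →ₗᵢ[ℝ] Z} (hC : Crv f F G Ψ) {a b : ℝ} (hab : a ≤ b) {V : Set ℝ} (hVab : V ⊆ Ioc a b)
    (hm : MeasurableSet V) (hV0 : 0 < volume V) {e : ℝ} (he : 0 < e)
    (hN : ∀ m, ∀ᵐ x : Fin m → ℝ, Low G Ψ V e m x)
    (hG : ∀ m, ∀ᵐ x : Fin m → ℝ, Good G Ψ (Finset.univ.image x)) {r : ℝ} (hr : r ≤ e / 4) :
    Rsv X r := by
  intro ι _ M φ ζ hζ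
  obtain ⟨c, hc⟩ : ((volume.restrict V).map (fun w i => dg f (φ i) w)).support.Nonempty := by
    refine Measure.nonempty_support ?_
    rw [Ne, Measure.map_eq_zero_iff (meas_h f φ).aemeasurable, Measure.restrict_eq_zero]
    exact hV0.ne'
  obtain ⟨V', hV'V, hV'm, hV'0, hclose⟩ := piece f hm φ hc hζ
  have hV'ab : V' ⊆ Ioc a b := hV'V.trans hVab
  have hV'f : volume V' ≠ ⊤ := vol_ne_top hV'ab
  have hxv' : ∀ r w : ℝ, ∃ x, Av f (V' ∩ Metric.closedBall w r) x := fun r w =>
    Av.exists hC.lip hab (inter_subset_left.trans hV'ab)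
      (hV'm.inter Metric.isClosed_closedBall.measurableSet)
  choose xv hxv using hxv'
  have hQ1 : ∀ᵐ w : ℝ, (w ∈ V' → ∀ k, Gd f V' (F k) w) ∧
      (w ∈ V' → ∀ᶠ r in 𝓝[>] (0 : ℝ), 0 < volume (V' ∩ Metric.closedBall w r)) ∧
      ∀ k, dg f (F k) w = G w k := by
    have h1 : ∀ᵐ w : ℝ, ∀ k, w ∈ V' → Gd f V' (F k) w :=
      ae_all_iff.2 fun k => ae_gd hC.lip hV'f hV'm (F k)
    filter_upwards [h1, ae_pos hV'm, ae_eqG hC] with w h1 h3 h4
    exact ⟨fun hw k => h1 k hw, h3, h4⟩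
  have hQ : ∀ᵐ x : Fin (M + M) → ℝ, Low G Ψ V e (M + M) x ∧ Good G Ψ (Finset.univ.image x) ∧
      Function.Injective x ∧ ∀ i, (x i ∈ V' → ∀ k, Gd f V' (F k) (x i)) ∧
      (x i ∈ V' → ∀ᶠ r in 𝓝[>] (0 : ℝ), 0 < volume (V' ∩ Metric.closedBall (x i) r)) ∧
      ∀ k, dg f (F k) (x i) = G (x i) k := by
    filter_upwards [hN (M + M), hG (M + M), ae_inj (M + M), ae_coord (M + M) hQ1] with x h1 h2 h3 h4
    exact ⟨h1, h2, h3, h4⟩
  obtain ⟨w, hwV', hlow, hgood, hinj, hw⟩ := pick (M + M) hQ (fun _ => V') (fun _ => hV'0)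
  have hwV : ∀ i, w i ∈ V := fun i => hV'V (hwV' i)
  have : FiniteDimensional ℝ (Submodule.span ℝ (range fun i => G (w i))) :=
    FiniteDimensional.span_of_finite ℝ (finite_range _)
  obtain ⟨Φ, hΦ⟩ := nrm (Submodule.span ℝ (range fun i => G (w i))) (1 / 2) (by norm_num)
  have hA : ∀ᶠ r in 𝓝[>] (0 : ℝ), ∀ k ∈ Φ, ∀ i, |F k (xv r (w i)) - G (w i) k| ≤ e / 12 := by
    rw [Finset.eventually_all]
    intro k _
    refine eventually_all.2 fun i => ?_
    have h1 := tendsto_av hxv ((hw i).1 (hwV' i) k)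
    rw [(hw i).2.2 k] at h1
    have h2 := (h1.sub_const (G (w i) k)).abs
    rw [sub_self, abs_zero] at h2
    exact h2.eventually_le_const (by positivity)
  have hD : ∀ᶠ r in 𝓝[>] (0 : ℝ), ∀ i, 0 < volume (V' ∩ Metric.closedBall (w i) r) :=
    eventually_all.2 fun i => (hw i).2.1 (hwV' i)
  obtain ⟨t, ht1, ht2⟩ := (hA.and hD).exists
  have hB : ∀ i, volume (V' ∩ Metric.closedBall (w i) t) ≠ ⊤ := fun i =>
    ne_top_of_le_ne_top hV'f (measure_mono inter_subset_left)
  obtain ⟨x, hxdef⟩ : ∃ x : Fin (M + M) → X, x = fun i => xv t (w i) := ⟨_, rfl⟩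
  have hx1 : ∀ i, ‖x i‖ ≤ 1 := fun i => by
    rw [hxdef]
    exact Av.norm_le hC.lip (hB i) (hxv t (w i))
  have hx2 : ∀ i j, |φ j (x i) - c j| ≤ ζ := fun i j => by
    rw [hxdef]
    exact Av.close hC.lip (hB i) (ht2 i) (hxv t (w i)) (φ j) fun s hs => hclose s hs.1 j
  have hx3 : ∀ k ∈ Φ, ∀ i, |F k (x i) - G (w i) k| ≤ e / 12 := fun k hk i => by
    rw [hxdef]
    exact ht1 k hk i
  have key : ∀ β : Fin (M + M) → ℝ, e / 4 * ∑ i, |β i| ≤ ‖∑ i, β i • x i‖ := by
    intro β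
    have h1 := low_all rem hC hlow hwV hinj hgood β
    have h2 := norm_ge_of_rho Ψ h1 0
    rw [map_zero, sub_zero] at h2
    obtain ⟨k, hk, h3⟩ := hΦ (∑ i, β i • G (w i)) (Submodule.sum_mem _ fun i _ =>
      Submodule.smul_mem _ _ (Submodule.subset_span (mem_range_self i)))
    have h4 : |F k (∑ i, β i • x i) - (∑ i, β i • G (w i)) k| ≤ e / 12 * ∑ i, |β i| := by
      have h5 : F k (∑ i, β i • x i) - (∑ i, β i • G (w i)) k =
          ∑ i, β i * (F k (x i) - G (w i) k) := by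
        rw [map_sum, BoundedContinuousFunction.coe_sum, Finset.sum_apply,
          ← Finset.sum_sub_distrib]
        refine Finset.sum_congr rfl fun i _ => ?_
        rw [map_smul, smul_eq_mul, mul_sub]
        rfl
      rw [h5]
      refine (Finset.abs_sum_le_sum_abs _ _).trans ?_
      rw [Finset.mul_sum]
      refine Finset.sum_le_sum fun i _ => ?_
      rw [abs_mul, mul_comm]
      exact mul_le_mul_of_nonneg_right (hx3 k hk i) (abs_nonneg _)
    have h6 : |F k (∑ i, β i • x i)| ≤ ‖∑ i, β i • x i‖ := by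
      have h7 := (F k).le_opNorm (∑ i, β i • x i)
      rw [Real.norm_eq_abs] at h7
      have h8 : ‖F k‖ * ‖∑ i, β i • x i‖ ≤ 1 * ‖∑ i, β i • x i‖ :=
        mul_le_mul_of_nonneg_right (hC.nF k) (norm_nonneg _)
      linarith
    have h9 : |(∑ i, β i • G (w i)) k| ≤ |F k (∑ i, β i • x i)| + e / 12 * ∑ i, |β i| := by
      have h10 := abs_sub_abs_le_abs_sub ((∑ i, β i • G (w i)) k) (F k (∑ i, β i • x i))
      rw [abs_sub_comm] at h10
      linarith
    linarith
  refine ⟨fun i => if h : i < M then (1 / 2 : ℝ) • (x (Fin.castAdd M ⟨i, h⟩) -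
    x (Fin.natAdd M ⟨i, h⟩)) else 0, ?_, ?_, ?_⟩
  · intro i
    dsimp only
    split_ifs with h
    · rw [norm_smul, Real.norm_of_nonneg (by norm_num)]
      have h1 := norm_sub_le (x (Fin.castAdd M ⟨i, h⟩)) (x (Fin.natAdd M ⟨i, h⟩))
      have h2 := hx1 (Fin.castAdd M ⟨i, h⟩)
      have h3 := hx1 (Fin.natAdd M ⟨i, h⟩)
      linarith
    · rw [norm_zero]
      exact zero_le_one
  · intro i j
    dsimp only
    split_ifs with h
    · have h2 := abs_le.1 (hx2 (Fin.castAdd M ⟨i, h⟩) j)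
      have h3 := abs_le.1 (hx2 (Fin.natAdd M ⟨i, h⟩) j)
      rw [map_smul, map_sub, smul_eq_mul, abs_le]
      constructor
      · linarith [h2.1, h2.2, h3.1, h3.2]
      · linarith [h2.1, h2.2, h3.1, h3.2]
    · rw [map_zero, abs_zero]
      exact hζ.le
  · intro α
    have h1 := key (Fin.append (fun i : Fin M => α i / 2) (fun i : Fin M => -(α i / 2)))
    rw [Fin.sum_univ_add, Fin.sum_univ_add] at h1
    simp only [Fin.append_left, Fin.append_right] at h1
    have h2 : ∑ i : Fin M, |α i / 2| + ∑ i : Fin M, |-(α i / 2)| = ∑ i ∈ Finset.range M, |α i| := by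
      rw [Finset.sum_range, ← Finset.sum_add_distrib]
      refine Finset.sum_congr rfl fun i _ => ?_
      rw [abs_neg, abs_div, abs_of_pos (by norm_num : (0 : ℝ) < 2)]
      ring
    have h3 : ∑ i : Fin M, (α i / 2) • x (Fin.castAdd M i) +
        ∑ i : Fin M, (-(α i / 2)) • x (Fin.natAdd M i) =
        ∑ i ∈ Finset.range M, α i • (if h : i < M then (1 / 2 : ℝ) • (x (Fin.castAdd M ⟨i, h⟩) -
          x (Fin.natAdd M ⟨i, h⟩)) else 0) := by
      rw [Finset.sum_range, ← Finset.sum_add_distrib]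
      refine Finset.sum_congr rfl fun i _ => ?_
      rw [dif_pos i.2, smul_smul, smul_sub, neg_smul, ← sub_eq_add_neg]
      congr 2 <;> ring
    rw [h2, h3] at h1
    refine le_trans ?_ h1
    exact mul_le_mul_of_nonneg_right hr (Finset.sum_nonneg fun i _ => abs_nonneg _)

/-- NZ: if `TT` fails, there is a bounded convex set with the property `N0` and the reservoir
property. -/
theorem nz (goo : GooStmt) (rem : RemStmt) (nrm : NrmStmt) [TopologicalSpace.SeparableSpace X]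
    {f : ℝ → X} {F : ℕ → StrongDual ℝ X} {G : ℝ → Z} {Ψ : X →ₗᵢ[ℝ] Z} (hC : Crv f F G Ψ)
    (hT : ¬ TT G Ψ) :
    ∃ (NN : Set X) (δ r : ℝ), 0 < r ∧ r ≤ 1 ∧ N0 NN δ ∧ Rsv X r := by
  obtain ⟨n, S, e, hS, hSn, hS0, he, hN⟩ := not_tt hT
  have hG : ∀ m, ∀ᵐ x : Fin m → ℝ, Good G Ψ (Finset.univ.image x) := by
    intro m
    have h1 := goo X f F G Ψ hC m
    filter_upwards [h1] with x hx
    rw [Finset.empty_union] at hx
    exact hx
  refine ⟨Kv f S, e / 2, min 1 (e / 4), lt_min one_pos (by positivity), min_le_left _ _,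
    n0 hC (by linarith) hSn hS hS0 he hN,
    rsv rem nrm hC (by linarith) hSn hS hS0 he hN hG (min_le_right _ _)⟩

end Pool.Agent.NA.H70
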