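import Pool.Agent.Helper70_NAL.YB
import Pool.Agent.NL.StmtsM
import Pool.Agent.NA.Defs

/-!
# MP_d20576_an, squad NAL: averages over subsets, good points (helper70)

`Av f B x`: `x` is the average of the derivative of `f` over `B`.  `Kv f V`: the convex hull of the
averages over the measurable subsets of `V` of positive measure.
-/

set_option autoImplicit false

open MeasureTheory Set Filter
open scoped Topology

noncomputable section

namespace Pool.Agent.NA.H70

open Pool.Agent.NL

variable {X : Type} [NormedAddCommGroup X] [NormedSpace ℝ X]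

/-- the derivative of `g ∘ f` -/
def dg (f : ℝ → X) (g : X →L[ℝ] ℝ) (w : ℝ) : ℝ := deriv (fun s => g (f s)) w

/-- `x` is the average of the derivative of `f` over `B` -/
def Av (f : ℝ → X) (B : Set ℝ) (x : X) : Prop :=
  ∀ g : X →L[ℝ] ℝ, g x = (volume B).toReal⁻¹ * ∫ w in B, dg f g w

/-- the averages over the measurable subsets of positive measure -/
def Ks (f : ℝ → X) (V : Set ℝ) : Set X :=
  {x | ∃ B, B ⊆ V ∧ MeasurableSet B ∧ 0 < volume B ∧ Av f B x}

/-- the convex hull of the averages over the measurable subsets of positive measure -/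
def Kv (f : ℝ → X) (V : Set ℝ) : Set X := convexHull ℝ (Ks f V)

theorem vol_ne_top {B : Set ℝ} {a b : ℝ} (hB : B ⊆ Ioc a b) : volume B ≠ ⊤ := by
  refine ne_top_of_le_ne_top ?_ (measure_mono hB)
  rw [Real.volume_Ioc]
  exact ENNReal.ofReal_ne_top

theorem meas_dg (f : ℝ → X) (g : X →L[ℝ] ℝ) : Measurable (dg f g) := meas_deriv f g

theorem dg_le {f : ℝ → X} (hf : LipschitzWith 1 f) (g : X →L[ℝ] ℝ) (w : ℝ) :
    |dg f g w| ≤ ‖g‖ := deriv_le hf g w

theorem int_dg {f : ℝ → X} (hf : LipschitzWith 1 f) (g : X →L[ℝ] ℝ) {S : Set ℝ}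
    (hS : volume S ≠ ⊤) : IntegrableOn (dg f g) S := integrableOn_deriv hf g hS

theorem Av.norm_le {f : ℝ → X} (hf : LipschitzWith 1 f) {B : Set ℝ} (hB : volume B ≠ ⊤) {x : X}
    (hx : Av f B x) : ‖x‖ ≤ 1 := by
  obtain ⟨g, hg, hgy⟩ := exists_dual_vector'' ℝ x
  have h1 : ‖∫ w in B, dg f g w‖ ≤ 1 * (volume B).toReal := by
    refine norm_setIntegral_le_of_norm_le_const (lt_top_iff_ne_top.2 hB) ?_
    intro w _
    exact (deriv_le hf g w).trans hg
  have h2 := hx g
  rw [hgy] at h2
  have h3 : ‖x‖ = (volume B).toReal⁻¹ * ∫ w in B, dg f g w := by simpa using h2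
  rw [h3]
  rcases eq_or_lt_of_le (ENNReal.toReal_nonneg (a := volume B)) with h0 | h0
  · rw [← h0, inv_zero, zero_mul]
    exact zero_le_one
  · rw [inv_mul_le_iff₀ h0, mul_one]
    rw [one_mul] at h1
    exact (le_abs_self _).trans h1

theorem Av.exists [CompleteSpace X] {f : ℝ → X} (hf : LipschitzWith 1 f) {B : Set ℝ} {a b : ℝ}
    (hab : a ≤ b) (hB : B ⊆ Ioc a b) (hm : MeasurableSet B) : ∃ x, Av f B x := by
  obtain ⟨y, -, hy⟩ := yb f hf hab B hm
  rw [inter_eq_left.2 hB] at hy
  refine ⟨(volume B).toReal⁻¹ • y, fun g => ?_⟩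
  rw [map_smul, smul_eq_mul, hy]
  rfl

/-- the values of `g` at the averages -/
theorem Av.close {f : ℝ → X} (hf : LipschitzWith 1 f) {B : Set ℝ} (hB : volume B ≠ ⊤)
    (hB0 : 0 < volume B) {x : X} (hx : Av f B x) (g : X →L[ℝ] ℝ)
    {c η : ℝ} (h : ∀ w ∈ B, |dg f g w - c| ≤ η) : |g x - c| ≤ η := by
  have h0 : 0 < (volume B).toReal := ENNReal.toReal_pos hB0.ne' hB
  have h1 : g x - c = (volume B).toReal⁻¹ * ∫ w in B, (dg f g w - c) := by
    rw [integral_sub (int_dg hf g hB) (integrableOn_const hB), setIntegral_const, hx g,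
      smul_eq_mul, Measure.real, mul_sub, inv_mul_cancel_left₀ h0.ne']
  rw [h1, abs_mul, abs_of_pos (inv_pos.2 h0), inv_mul_le_iff₀ h0]
  have h2 : ‖∫ w in B, (dg f g w - c)‖ ≤ η * (volume B).toReal :=
    norm_setIntegral_le_of_norm_le_const (lt_top_iff_ne_top.2 hB) h
  rw [mul_comm]
  exact h2

/-- the points of `V` at which the averages over the small intervals converge -/
def Gd (f : ℝ → X) (V : Set ℝ) (g : X →L[ℝ] ℝ) (w : ℝ) : Prop :=
  Tendsto (fun r => (volume (V ∩ Metric.closedBall w r)).toReal⁻¹ *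
    ∫ s in V ∩ Metric.closedBall w r, dg f g s) (𝓝[>] 0) (𝓝 (dg f g w))

theorem ae_gd {f : ℝ → X} (hf : LipschitzWith 1 f) {V : Set ℝ} (hV : volume V ≠ ⊤)
    (hm : MeasurableSet V) (g : X →L[ℝ] ℝ) : ∀ᵐ w, w ∈ V → Gd f V g w := by
  rw [← ae_restrict_iff' hm]
  have h1 : LocallyIntegrable (dg f g) (volume.restrict V) :=
    (int_dg hf g hV).locallyIntegrable
  filter_upwards [(Besicovitch.vitaliFamily (volume.restrict V)).ae_tendsto_average h1] with w hw
  have h2 := hw.comp (Besicovitch.tendsto_filterAt (volume.restrict V) w)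
  refine h2.congr fun r => ?_
  simp only [Function.comp]
  rw [setAverage_eq, smul_eq_mul, Measure.real,
    Measure.restrict_apply Metric.isClosed_closedBall.measurableSet,
    Measure.restrict_restrict Metric.isClosed_closedBall.measurableSet, inter_comm]

theorem ae_pos {V : Set ℝ} (hm : MeasurableSet V) :
    ∀ᵐ w, w ∈ V → ∀ᶠ r in 𝓝[>] (0 : ℝ), 0 < volume (V ∩ Metric.closedBall w r) := by
  rw [← ae_restrict_iff' hm]
  filter_upwards [(Besicovitch.vitaliFamily
    (volume.restrict V)).ae_eventually_measure_pos] with w hw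
  have h2 := (Besicovitch.tendsto_filterAt (volume.restrict V) w).eventually hw
  filter_upwards [h2] with r hr
  rw [Measure.restrict_apply Metric.isClosed_closedBall.measurableSet, inter_comm] at hr
  exact hr

/-- the coordinates of the weak derivative are the derivatives of the coordinates -/
theorem ae_eqG {f : ℝ → X} {F : ℕ → StrongDual ℝ X} {G : ℝ → Z} {Ψ : X →ₗᵢ[ℝ] Z}
    (hC : Crv f F G Ψ) : ∀ᵐ w, ∀ k, dg f (F k) w = G w k := by
  rw [ae_all_iff]
  intro k
  have hb : ∀ w, ‖G w k‖ ≤ 1 := fun w => ((G w).norm_coe_le_norm k).trans (hC.bdd w)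
  have hl : LocallyIntegrable (fun w => G w k) volume := by
    refine (locallyIntegrable_const (1 : ℝ)).mono (hC.mea k).aestronglyMeasurable ?_
    refine ae_of_all _ fun w => ?_
    rw [norm_one]
    exact hb w
  filter_upwards [_root_.LocallyIntegrable.ae_hasDerivAt_integral hl] with w hw
  have h1 := hw w
  have h2 : (fun s => F k (f s)) = fun s => F k (f w) + ∫ t in w..s, G t k := by
    funext s
    rcases le_total w s with h | h
    · rw [← hC.avg w s h k]
      ring
    · rw [intervalIntegral.integral_symm, ← hC.avg s w h k]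
      ring
  change deriv (fun s => F k (f s)) w = G w k
  rw [h2]
  exact (h1.const_add _).deriv

/-- almost all tuples are injective -/
theorem ae_inj (m : ℕ) : ∀ᵐ x : Fin m → ℝ, Function.Injective x := by
  have h1 : ∀ i j : Fin m, ∀ᵐ x : Fin m → ℝ, i ≠ j → x i ≠ x j := by
    intro i j
    by_cases hij : i = j
    · exact ae_of_all _ fun x h => absurd hij h
    · let L : (Fin m → ℝ) →ₗ[ℝ] ℝ :=
        (LinearMap.proj i : (Fin m → ℝ) →ₗ[ℝ] ℝ) - (LinearMap.proj j : (Fin m → ℝ) →ₗ[ℝ] ℝ)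
      have hne : LinearMap.ker L ≠ ⊤ := by
        intro h
        have h2 : Pi.single i (1 : ℝ) ∈ LinearMap.ker L := by rw [h]; trivial
        rw [LinearMap.mem_ker] at h2
        simp only [L, LinearMap.sub_apply, LinearMap.proj_apply, Pi.single_eq_same] at h2
        rw [Pi.single_eq_of_ne (Ne.symm hij), sub_zero] at h2
        exact one_ne_zero h2
      have h3 := Measure.addHaar_submodule (volume : Measure (Fin m → ℝ)) (LinearMap.ker L) hne
      rw [ae_iff]
      refine measure_mono_null ?_ h3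
      intro x hx
      simp only [mem_ofPred_eq, not_forall] at hx
      obtain ⟨-, h4⟩ := hx
      rw [not_not] at h4
      change L x = 0
      simp only [L, LinearMap.sub_apply, LinearMap.proj_apply, h4, sub_self]
  have h2 : ∀ᵐ x : Fin m → ℝ, ∀ i j : Fin m, i ≠ j → x i ≠ x j := by
    rw [ae_all_iff]
    intro i
    rw [ae_all_iff]
    exact h1 i
  filter_upwards [h2] with x hx i j hij
  by_contra h
  exact hx i j h hij

/-- a choice of good points in given pieces -/
theorem pick (m : ℕ) {Q : (Fin m → ℝ) → Prop} (hQ : ∀ᵐ x, Q x) (P : Fin m → Set ℝ)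
    (hp0 : ∀ j, 0 < volume (P j)) : ∃ x : Fin m → ℝ, (∀ j, x j ∈ P j) ∧ Q x := by
  have h3 : volume (Set.pi univ P) ≠ 0 := by
    rw [volume_pi_pi]
    exact Finset.prod_ne_zero_iff.2 fun i _ => (hp0 _).ne'
  obtain ⟨x, hx, h4⟩ := Measure.exists_mem_of_measure_ne_zero_of_ae h3 (ae_restrict_of_ae hQ)
  exact ⟨x, fun j => hx j (mem_univ j), h4⟩

theorem ae_coord (m : ℕ) {Q : ℝ → Prop} (hQ : ∀ᵐ w, Q w) : ∀ᵐ x : Fin m → ℝ, ∀ i, Q (x i) := by
  rw [ae_all_iff]
  intro i
  exact (Measure.quasiMeasurePreserving_eval (fun _ : Fin m => (volume : Measure ℝ)) i).ae hQ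

end Pool.Agent.NA.H70
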