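import Pool.Agent.Helper70_NAL.NZa

/-!
# MP_d20576_an, squad NAL: pieces (helper70)
-/

set_option autoImplicit false

open MeasureTheory Set Filter
open scoped Topology

noncomputable section

namespace Pool.Agent.NA.H70

open Pool.Agent.NL

variable {X : Type} [NormedAddCommGroup X] [NormedSpace ℝ X]

theorem meas_h (f : ℝ → X) {ι : Type} [Fintype ι] (φ : ι → X →L[ℝ] ℝ) :
    Measurable (fun w i => dg f (φ i) w) := measurable_pi_lambda _ fun i => meas_dg f (φ i)

/-- the piece around a point of the support -/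
theorem piece (f : ℝ → X) {V : Set ℝ} (hm : MeasurableSet V)
    {ι : Type} [Fintype ι] (φ : ι → X →L[ℝ] ℝ) {c : ι → ℝ}
    (hc : c ∈ ((volume.restrict V).map (fun w i => dg f (φ i) w)).support) {η : ℝ} (hη : 0 < η) :
    ∃ P : Set ℝ, P ⊆ V ∧ MeasurableSet P ∧ 0 < volume P ∧ ∀ w ∈ P, ∀ i, |dg f (φ i) w - c i| ≤ η := by
  have hh := meas_h f φ
  refine ⟨V ∩ (fun w i => dg f (φ i) w) ⁻¹' Metric.ball c η, inter_subset_left,
    hm.inter (hh Metric.isOpen_ball.measurableSet), ?_, ?_⟩
  · have h1 := (Measure.mem_support_iff_forall c).1 hc _ (Metric.ball_mem_nhds c hη)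
    rw [Measure.map_apply hh Metric.isOpen_ball.measurableSet,
      Measure.restrict_apply (hh Metric.isOpen_ball.measurableSet), inter_comm] at h1
    exact h1
  · rintro w ⟨-, hw⟩ i
    have h2 : dist (fun i => dg f (φ i) w) c < η := hw
    rw [← Real.dist_eq]
    exact (dist_le_pi_dist (fun i => dg f (φ i) w) c i).trans h2.le

theorem ae_supp (f : ℝ → X) (V : Set ℝ) {ι : Type} [Fintype ι] (φ : ι → X →L[ℝ] ℝ) :
    ∀ᵐ w ∂(volume.restrict V), (fun i => dg f (φ i) w) ∈
      ((volume.restrict V).map (fun w i => dg f (φ i) w)).support := by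
  have h1 : ∀ᵐ c ∂((volume.restrict V).map (fun w i => dg f (φ i) w)),
    c ∈ ((volume.restrict V).map (fun w i => dg f (φ i) w)).support := Measure.support_mem_ae
  exact ae_of_ae_map (meas_h f φ).aemeasurable h1

/-- the values at the points of the convex hull of the averages -/
theorem val_mem {f : ℝ → X} (hf : LipschitzWith 1 f) {V : Set ℝ}
    (hV : volume V ≠ ⊤) {ι : Type} [Fintype ι] (φ : ι → X →L[ℝ] ℝ) {u : X} (hu : u ∈ Kv f V) :
    (fun i => φ i u) ∈ closure (convexHull ℝ
      ((volume.restrict V).map (fun w i => dg f (φ i) w)).support) := by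
  set C : Set (ι → ℝ) := closure (convexHull ℝ
      ((volume.restrict V).map (fun w i => dg f (φ i) w)).support) with hCdef
  have hC : Convex ℝ C := (convex_convexHull ℝ _).closure
  have h1 : Kv f V ⊆ (LinearMap.pi fun i => (φ i : X →ₗ[ℝ] ℝ)) ⁻¹' C := by
    refine convexHull_min ?_ (hC.linear_preimage _)
    rintro x ⟨B, hBV, hBm, hB0, hx⟩
    have hB : volume B ≠ ⊤ := ne_top_of_le_ne_top hV (measure_mono hBV)
    have hi : ∀ i, Integrable (fun w => dg f (φ i) w) (volume.restrict B) := fun i =>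
      int_dg hf (φ i) hB
    have h2 : IntegrableOn (fun w i => dg f (φ i) w) B := Integrable.of_eval hi
    have h3 : ∀ᵐ w ∂(volume.restrict B), (fun i => dg f (φ i) w) ∈ C := by
      have h4 := ae_restrict_of_ae_restrict_of_subset hBV (ae_supp f V φ)
      filter_upwards [h4] with w hw
      exact subset_closure (subset_convexHull ℝ _ hw)
    have h5 := hC.set_average_mem isClosed_closure hB0.ne' hB h3 h2
    have h6 : (⨍ w in B, fun i => dg f (φ i) w) = fun i => φ i x := by
      funext i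
      rw [setAverage_eq, Pi.smul_apply, smul_eq_mul, eval_integral hi, hx (φ i)]
      rfl
    rw [h6] at h5
    exact h5
  exact h1 hu

/-- pieces -/
theorem pieces {f : ℝ → X} (hf : LipschitzWith 1 f) {V : Set ℝ} (hm : MeasurableSet V)
    (hV : volume V ≠ ⊤) {ι : Type} [Fintype ι] (φ : ι → X →L[ℝ] ℝ) {u : X} (hu : u ∈ Kv f V)
    {η : ℝ} (hη : 0 < η) :
    ∃ (m : ℕ) (p : Fin m → ℝ) (c : Fin m → ι → ℝ) (P : Fin m → Set ℝ),
      (∀ l, 0 ≤ p l) ∧ ∑ l, p l = 1 ∧
      (∀ l, P l ⊆ V ∧ MeasurableSet (P l) ∧ 0 < volume (P l) ∧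
        ∀ w ∈ P l, ∀ i, |dg f (φ i) w - c l i| ≤ η) ∧
      ∀ i, |∑ l, p l * c l i - φ i u| ≤ η := by
  obtain ⟨q, hq, hd⟩ := Metric.mem_closure_iff.1 (val_mem hf hV φ hu) η hη
  rw [mem_convexHull_iff_exists_fintype] at hq
  obtain ⟨κ, hκ, p, z, hp0, hp1, hz, hpz⟩ := hq
  let e := Fintype.equivFin κ
  choose P hP using fun l => piece f hm φ (hz l) hη
  refine ⟨Fintype.card κ, fun l => p (e.symm l), fun l => z (e.symm l), fun l => P (e.symm l),
    fun l => hp0 _, ?_, fun l => hP _, ?_⟩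
  · rw [Equiv.sum_comp e.symm p]
    exact hp1
  · intro i
    rw [Equiv.sum_comp e.symm (fun l => p l * z l i)]
    have h1 : ∑ l, p l * z l i = q i := by
      rw [← hpz, Finset.sum_apply]
      rfl
    rw [h1, ← Real.dist_eq, dist_comm]
    exact (dist_le_pi_dist (fun i => φ i u) q i).trans hd.le

end Pool.Agent.NA.H70
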