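import Pool.Agent.Helper70_NAL.NZb

/-!
# MP_d20576_an, squad NAL: the case in which the return to the space fails (helper70)
-/

set_option autoImplicit false

open MeasureTheory Set Filter
open scoped Topology

noncomputable section

namespace Pool.Agent.NA.H70

open Pool.Agent.NL

variable {X : Type} [NormedAddCommGroup X] [NormedSpace ℝ X]

/-- the lower bound for the distances of the convex combinations from `X` -/
def Low (G : ℝ → Z) (Ψ : X →ₗᵢ[ℝ] Z) (S : Set ℝ) (e : ℝ) (m : ℕ) (x : Fin m → ℝ) : Prop :=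
  (∀ i, x i ∈ S) → ∀ p : Fin m → ℝ, (∀ i, 0 ≤ p i) → ∑ i, p i = 1 →
      e ≤ rho Ψ (∑ i, p i • G (x i))

theorem not_tt {G : ℝ → Z} {Ψ : X →ₗᵢ[ℝ] Z} (h : ¬ TT G Ψ) :
    ∃ (n : ℤ) (S : Set ℝ) (e : ℝ), MeasurableSet S ∧ S ⊆ Ioc (n : ℝ) (n + 1) ∧ 0 < volume S ∧
      0 < e ∧ ∀ m, ∀ᵐ x : Fin m → ℝ, Low G Ψ S e m x := by
  unfold TT at h
  push Not at h
  obtain ⟨S, hS, hS0, e, he, hN⟩ := h
  have h1 : ∃ n : ℤ, volume (S ∩ Ioc (n : ℝ) (n + 1)) ≠ 0 := by
    by_contra hcon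
    push Not at hcon
    refine hS0 (measure_mono_null (t := ⋃ n : ℤ, S ∩ Ioc (n : ℝ) (n + 1)) ?_
      (measure_iUnion_null hcon))
    intro x hx
    rw [← inter_iUnion, iUnion_Ioc_intCast]
    exact ⟨hx, mem_univ x⟩
  obtain ⟨n, hn⟩ := h1
  refine ⟨n, S ∩ Ioc (n : ℝ) (n + 1), e, hS.inter measurableSet_Ioc, inter_subset_right,
    pos_iff_ne_zero.2 hn, he, fun m => ?_⟩
  filter_upwards [hN m] with x hx hxS p hp0 hp1
  exact hx (fun i => (hxS i).1) p hp0 hp1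

theorem tendsto_av {f : ℝ → X} {V : Set ℝ} {xv : ℝ → ℝ → X}
    (hxv : ∀ r w, Av f (V ∩ Metric.closedBall w r) (xv r w)) {g : X →L[ℝ] ℝ} {w : ℝ}
    (h : Gd f V g w) : Tendsto (fun r => g (xv r w)) (𝓝[>] 0) (𝓝 (dg f g w)) := by
  refine h.congr fun r => ?_
  rw [hxv r w g]

theorem norm_ge_of_rho (Ψ : X →ₗᵢ[ℝ] Z) {z : Z} {e : ℝ} (h : e ≤ rho Ψ z) (u : X) :
    e ≤ ‖z - Ψ u‖ := by
  rw [← dist_eq_norm]
  exact h.trans (Metric.infDist_le_dist_of_mem (mem_range_self u))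

theorem exists_coord {z : Z} {e : ℝ} (he : 0 < e) (h : e ≤ ‖z‖) : ∃ k, 3 * e / 4 < |z k| := by
  by_contra hcon
  push Not at hcon
  have h1 : ‖z‖ ≤ 3 * e / 4 := (BoundedContinuousFunction.norm_le (by positivity)).2 hcon
  linarith

variable [CompleteSpace X]

theorem n0 {f : ℝ → X} {F : ℕ → StrongDual ℝ X} {G : ℝ → Z} {Ψ : X →ₗᵢ[ℝ] Z}
    (hC : Crv f F G Ψ) {a b : ℝ} (hab : a ≤ b) {V : Set ℝ} (hVab : V ⊆ Ioc a b)
    (hm : MeasurableSet V) (hV0 : 0 < volume V) {e : ℝ} (he : 0 < e)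
    (hN : ∀ m, ∀ᵐ x : Fin m → ℝ, Low G Ψ V e m x) : N0 (Kv f V) (e / 2) := by
  have hV : volume V ≠ ⊤ := vol_ne_top hVab
  refine ⟨by positivity, ?_, convex_convexHull ℝ _, ?_, ?_⟩
  · obtain ⟨x, hx⟩ := Av.exists hC.lip hab hVab hm
    exact ⟨x, subset_convexHull ℝ _ ⟨V, Subset.rfl, hm, hV0, hx⟩⟩
  · intro u hu
    have h1 : Kv f V ⊆ Metric.closedBall (0 : X) 1 := by
      refine convexHull_min ?_ (convex_closedBall 0 1)
      rintro x ⟨B, hBV, hBm, hB0, hx⟩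
      rw [mem_closedBall_zero_iff]
      exact Av.norm_le hC.lip (ne_top_of_le_ne_top hV (measure_mono hBV)) hx
    exact mem_closedBall_zero_iff.1 (h1 hu)
  · intro u hu k φ η hη
    obtain ⟨m, p, c, P, hp0, hp1, hP, hpc⟩ := pieces hC.lip hm hV φ hu (η := η / 4) (by positivity)
    have hxv' : ∀ r w : ℝ, ∃ x, Av f (V ∩ Metric.closedBall w r) x := fun r w =>
      Av.exists hC.lip hab (inter_subset_left.trans hVab)
        (hm.inter Metric.isClosed_closedBall.measurableSet)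
    choose xv hxv using hxv'
    have hQ1 : ∀ᵐ w : ℝ, (w ∈ V → ∀ k, Gd f V (F k) w) ∧ (w ∈ V → ∀ i, Gd f V (φ i) w) ∧
        (w ∈ V → ∀ᶠ r in 𝓝[>] (0 : ℝ), 0 < volume (V ∩ Metric.closedBall w r)) ∧
        ∀ k, dg f (F k) w = G w k := by
      have h1 : ∀ᵐ w : ℝ, ∀ k, w ∈ V → Gd f V (F k) w :=
        ae_all_iff.2 fun k => ae_gd hC.lip hV hm (F k)
      have h2 : ∀ᵐ w : ℝ, ∀ i, w ∈ V → Gd f V (φ i) w :=
        ae_all_iff.2 fun i => ae_gd hC.lip hV hm (φ i)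
      filter_upwards [h1, h2, ae_pos hm, ae_eqG hC] with w h1 h2 h3 h4
      exact ⟨fun hw k => h1 k hw, fun hw i => h2 i hw, h3, h4⟩
    have hQ : ∀ᵐ x : Fin m → ℝ, Low G Ψ V e m x ∧ ∀ i, (x i ∈ V → ∀ k, Gd f V (F k) (x i)) ∧
        (x i ∈ V → ∀ j, Gd f V (φ j) (x i)) ∧
        (x i ∈ V → ∀ᶠ r in 𝓝[>] (0 : ℝ), 0 < volume (V ∩ Metric.closedBall (x i) r)) ∧
        ∀ k, dg f (F k) (x i) = G (x i) k := by
      filter_upwards [hN m, ae_coord m hQ1] with x h1 h2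
      exact ⟨h1, h2⟩
    obtain ⟨w, hwP, hlow, hw⟩ := pick m hQ P (fun l => (hP l).2.2.1)
    have hwV : ∀ l, w l ∈ V := fun l => (hP l).1 (hwP l)
    have hrho := hlow hwV p hp0 hp1
    obtain ⟨k0, hk0⟩ := exists_coord he (norm_ge_of_rho Ψ hrho u)
    have hv : ∀ g : X →L[ℝ] ℝ, (∀ l, Gd f V g (w l)) →
        Tendsto (fun r => g (∑ l, p l • xv r (w l) - u)) (𝓝[>] 0)
          (𝓝 (∑ l, p l * dg f g (w l) - g u)) := by
      intro g hg
      have h1 : ∀ r, g (∑ l, p l • xv r (w l) - u) = ∑ l, p l * g (xv r (w l)) - g u := by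
        intro r
        rw [map_sub, map_sum]
        simp only [map_smul, smul_eq_mul]
      simp only [h1]
      exact (tendsto_finsetSum _ fun l _ => (tendsto_av hxv (hg l)).const_mul (p l)).sub_const _
    have hA : ∀ i, ∀ᶠ r in 𝓝[>] (0 : ℝ), |φ i (∑ l, p l • xv r (w l) - u)| < η := by
      intro i
      have h1 := (hv (φ i) fun l => (hw l).2.1 (hwV l) i).abs
      refine h1.eventually_lt_const ?_
      have h2 : |∑ l, p l * dg f (φ i) (w l) - ∑ l, p l * c l i| ≤ η / 4 := by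
        rw [← Finset.sum_sub_distrib]
        refine (Finset.abs_sum_le_sum_abs _ _).trans ?_
        have h3 : ∀ l ∈ Finset.univ, |p l * dg f (φ i) (w l) - p l * c l i| ≤ p l * (η / 4) := by
          intro l _
          rw [← mul_sub, abs_mul, abs_of_nonneg (hp0 l)]
          exact mul_le_mul_of_nonneg_left ((hP l).2.2.2 (w l) (hwP l) i) (hp0 l)
        refine (Finset.sum_le_sum h3).trans ?_
        rw [← Finset.sum_mul, hp1, one_mul]
      have h4 := hpc i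
      have h5 : |∑ l, p l * dg f (φ i) (w l) - φ i u| ≤ η / 4 + η / 4 := by
        refine (abs_sub_le _ (∑ l, p l * c l i) _).trans ?_
        exact add_le_add h2 h4
      linarith
    have hB : ∀ᶠ r in 𝓝[>] (0 : ℝ), e / 2 < |F k0 (∑ l, p l • xv r (w l) - u)| := by
      have h1 := (hv (F k0) fun l => (hw l).1 (hwV l) k0).abs
      refine h1.eventually_const_lt ?_
      have h2 : ∑ l, p l * dg f (F k0) (w l) - F k0 u = (∑ i, p i • G (w i) - Ψ u) k0 := by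
        rw [BoundedContinuousFunction.coe_sub, Pi.sub_apply, hC.psi,
          BoundedContinuousFunction.coe_sum, Finset.sum_apply]
        congr 1
        refine Finset.sum_congr rfl fun l _ => ?_
        rw [(hw l).2.2.2 k0]
        rfl
      rw [h2]
      linarith
    have hD : ∀ᶠ r in 𝓝[>] (0 : ℝ), ∀ l, 0 < volume (V ∩ Metric.closedBall (w l) r) :=
      eventually_all.2 fun l => (hw l).2.2.1 (hwV l)
    obtain ⟨r, hr1, hr2, hr3⟩ := ((eventually_all.2 hA).and (hB.and hD)).exists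
    refine ⟨∑ l, p l • xv r (w l), ?_, hr1, ?_⟩
    · refine (convex_convexHull ℝ _).sum_mem (fun l _ => hp0 l) hp1 fun l _ => ?_
      exact subset_convexHull ℝ _ ⟨_, inter_subset_left,
        hm.inter Metric.isClosed_closedBall.measurableSet, hr3 l, hxv r (w l)⟩
    · have h1 := (F k0).le_opNorm (∑ l, p l • xv r (w l) - u)
      rw [Real.norm_eq_abs] at h1
      have h2 : ‖F k0‖ * ‖∑ l, p l • xv r (w l) - u‖ ≤ 1 * ‖∑ l, p l • xv r (w l) - u‖ :=
        mul_le_mul_of_nonneg_right (hC.nF k0) (norm_nonneg _)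
      linarith

end Pool.Agent.NA.H70
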