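import Mathlib

/-!
# MP_d20576_an, squad NAL: the vector measure of a Lipschitz curve (helper70)

For a Lipschitz curve `f : ℝ → X` and a measurable set `B` there is a vector `y` in `X` with
`g y = ∫_B (g ∘ f)'` for all functionals `g`, and `‖y‖ ≤ |B|`.
-/

set_option autoImplicit false

open MeasureTheory Set Filter
open scoped Topology

noncomputable section

namespace Pool.Agent.NA.H70

variable {X : Type} [NormedAddCommGroup X] [NormedSpace ℝ X]

theorem lip_comp {f : ℝ → X} (hf : LipschitzWith 1 f) (g : X →L[ℝ] ℝ) :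
    LipschitzWith ‖g‖₊ (fun s => g (f s)) := by
  have h := g.lipschitz.comp hf
  rw [mul_one] at h
  exact h

theorem deriv_le {f : ℝ → X} (hf : LipschitzWith 1 f) (g : X →L[ℝ] ℝ) (w : ℝ) :
    ‖deriv (fun s => g (f s)) w‖ ≤ ‖g‖ := by
  have h := norm_deriv_le_of_lipschitz (x₀ := w) (lip_comp hf g)
  exact h

theorem meas_deriv (f : ℝ → X) (g : X →L[ℝ] ℝ) : Measurable (deriv (fun s => g (f s))) :=
  measurable_deriv _

theorem integrableOn_deriv {f : ℝ → X} (hf : LipschitzWith 1 f) (g : X →L[ℝ] ℝ) {S : Set ℝ}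
    (hS : volume S ≠ ⊤) : IntegrableOn (deriv (fun s => g (f s))) S := by
  have h1 : IntegrableOn (fun _ : ℝ => ‖g‖) S := integrableOn_const hS
  refine Integrable.mono h1 (meas_deriv f g).aestronglyMeasurable ?_
  refine ae_of_all _ fun w => ?_
  rw [Real.norm_of_nonneg (norm_nonneg g)]
  exact deriv_le hf g w

/-- the fundamental theorem of calculus -/
theorem ftc {f : ℝ → X} (hf : LipschitzWith 1 f) (g : X →L[ℝ] ℝ) {a b : ℝ} (hab : a ≤ b) :
    ∫ w in Ioc a b, deriv (fun s => g (f s)) w = g (f b) - g (f a) := by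
  rw [← intervalIntegral.integral_of_le hab]
  exact ((lip_comp hf g).lipschitzOnWith.absolutelyContinuousOnInterval).integral_deriv_eq_sub

theorem norm_le {f : ℝ → X} (hf : LipschitzWith 1 f) {S : Set ℝ} (hS : volume S ≠ ⊤) {y : X}
    (hy : ∀ g : X →L[ℝ] ℝ, g y = ∫ w in S, deriv (fun s => g (f s)) w) :
    ‖y‖ ≤ (volume S).toReal := by
  obtain ⟨g, hg, hgy⟩ := exists_dual_vector'' ℝ y
  have h1 : ‖∫ w in S, deriv (fun s => g (f s)) w‖ ≤ 1 * (volume S).toReal := by
    refine norm_setIntegral_le_of_norm_le_const (lt_top_iff_ne_top.2 hS) ?_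
    intro w _
    exact (deriv_le hf g w).trans hg
  rw [← hy, hgy, one_mul] at h1
  simpa using h1

variable [CompleteSpace X]

/-- the vector of a measurable set -/
theorem yb0 (f : ℝ → X) (hf : LipschitzWith 1 f) {a b : ℝ} (hab : a ≤ b) (B : Set ℝ)
    (hB : MeasurableSet B) :
    ∃ y : X, ∀ g : X →L[ℝ] ℝ, g y = ∫ w in B ∩ Ioc a b, deriv (fun s => g (f s)) w := by
  have hfin : ∀ S : Set ℝ, volume (S ∩ Ioc a b) ≠ ⊤ := by
    intro S
    refine ne_top_of_le_ne_top ?_ (measure_mono inter_subset_right)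
    rw [Real.volume_Ioc]
    exact ENNReal.ofReal_ne_top
  refine MeasurableSpace.induction_on_inter
    (C := fun (S : Set ℝ) _ => ∃ y : X, ∀ g : X →L[ℝ] ℝ,
      g y = ∫ w in S ∩ Ioc a b, deriv (fun s => g (f s)) w)
    (BorelSpace.measurable_eq.trans (borel_eq_generateFrom_Ioc ℝ)) ?_ ?_ ?_ ?_ ?_ B hB
  · exact isPiSystem_Ioc (fun x : ℝ => x) (fun x : ℝ => x)
  · refine ⟨0, fun g => ?_⟩
    rw [empty_inter, setIntegral_empty, map_zero]
  · rintro _ ⟨l, u, hlu, rfl⟩
    rw [Ioc_inter_Ioc]
    rcases le_or_gt (max l a) (min u b) with h | h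
    · refine ⟨f (min u b) - f (max l a), fun g => ?_⟩
      rw [ftc hf g h, map_sub]
    · refine ⟨0, fun g => ?_⟩
      rw [Ioc_eq_empty (not_lt.2 h.le), setIntegral_empty, map_zero]
  · rintro S hS ⟨y, hy⟩
    refine ⟨f b - f a - y, fun g => ?_⟩
    rw [map_sub, map_sub, hy]
    have h1 : (∫ w in S ∩ Ioc a b, deriv (fun s => g (f s)) w) +
        ∫ w in Sᶜ ∩ Ioc a b, deriv (fun s => g (f s)) w =
        ∫ w in Ioc a b, deriv (fun s => g (f s)) w := by
      rw [← setIntegral_union _ (hS.compl.inter measurableSet_Ioc)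
        (integrableOn_deriv hf g (hfin _)) (integrableOn_deriv hf g (hfin _)),
        ← union_inter_distrib_right, union_compl_self, univ_inter]
      exact Disjoint.mono inter_subset_left inter_subset_left disjoint_compl_right
    rw [ftc hf g hab] at h1
    linarith
  · intro t hd hm h
    choose y hy using h
    have hb : ∀ i, ‖y i‖ ≤ (volume (t i ∩ Ioc a b)).toReal := fun i =>
      norm_le hf (hfin _) (hy i)
    have hdis : Pairwise (Function.onFun Disjoint fun i => t i ∩ Ioc a b) := by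
      intro i j hij
      exact Disjoint.mono inter_subset_left inter_subset_left (hd hij)
    have hmi : ∀ i, MeasurableSet (t i ∩ Ioc a b) := fun i => (hm i).inter measurableSet_Ioc
    have hs : Summable fun i => (volume (t i ∩ Ioc a b)).toReal := by
      refine ENNReal.summable_toReal ?_
      rw [← measure_iUnion hdis hmi, ← iUnion_inter]
      exact hfin _
    have hsy : Summable y := Summable.of_norm_bounded hs hb
    refine ⟨∑' i, y i, fun g => ?_⟩
    rw [iUnion_inter, g.map_tsum hsy]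
    have h1 := hasSum_integral_iUnion (μ := volume) (f := deriv (fun s => g (f s))) hmi hdis
      (by
        rw [← iUnion_inter]
        exact integrableOn_deriv hf g (hfin _))
    rw [← h1.tsum_eq]
    exact tsum_congr fun i => hy i g

/-- the vector of a measurable set, with the norm bound -/
theorem yb (f : ℝ → X) (hf : LipschitzWith 1 f) {a b : ℝ} (hab : a ≤ b) (B : Set ℝ)
    (hB : MeasurableSet B) :
    ∃ y : X, ‖y‖ ≤ (volume (B ∩ Ioc a b)).toReal ∧
      ∀ g : X →L[ℝ] ℝ, g y = ∫ w in B ∩ Ioc a b, deriv (fun s => g (f s)) w := by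
  obtain ⟨y, hy⟩ := yb0 f hf hab B hB
  refine ⟨y, norm_le hf ?_ hy, hy⟩
  refine ne_top_of_le_ne_top ?_ (measure_mono inter_subset_right)
  rw [Real.volume_Ioc]
  exact ENNReal.ofReal_ne_top

end Pool.Agent.NA.H70
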